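import Mathlib
import Pool.Agent.Run7.h963.SX.Num
import Pool.Agent.Run7.h963.SX.SL2

/-!
# Stark's conjecture for the irreducible characters with an irrational value at an element with an
# abelian centralizer of a certain type

The definitions of `Ext`, `G`, `IsChr`, `Pair`, `IsLeading`, `Stark`, `lin` are in
`Pool.Agent.K4H74.SC.Core`, that of `IsDefect` in `Pool.Agent.K4H77.SL.Def` (the defect of `χ` and
`σ` is the number `d` with `A(χ, φ)^σ = d A(χ^σ, φ)` for all `φ`; Stark's conjecture says `d = 1`),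
those of `sub`, `res` in `Pool.Agent.Run7.h200.SP.Defs`, those of `RatVal`, `IsIrrChr` in
`Pool.Agent.Run7.h200.SP.Main`, and those of `RatEl`, `Special`, `Tame` in
`Pool.Agent.Run7.h963.SX.Defs`. `S` is the set of the infinite places.

A subgroup `T` of a finite group is special if it is abelian and contains the centralizers of its
elements, with the exception of `1` and possibly of one involution. For example the centralizers of
prime order are special. A finite group is tame if all the elements which are not conjugate to all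
their powers with exponents prime to the order lie in special subgroups.

(A) The finite subgroups of `SL_2(F)` and of `PGL_2(F)` are tame for every field `F`, and so are the
finite groups in which the centralizers of the elements different from `1` are abelian.

(B) Let `L / K` be a Galois extension of number fields with the group `G`, `T` a special subgroup of
`G`, and `χ` an irreducible character of `G` with an irrational value at some element of `T`. There
are a linear character `θ` of `T`, not fixed by any element of the normalizer of `T` outside of `T`,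
a sign `ε` and characters `ψ`, `ψ'` of `G` with rational values such that `χ + ψ = ψ' + ε Ind θ`, and,
where `θ` is regarded as a character of the Galois group of the abelian extension `L / L^T`, the
leading coefficients at `s = 0` satisfy `L*(0, χ) L*(0, ψ) = L*(0, ψ') L*(0, θ) ^ ε`, the defects
satisfy `d(χ, σ) d(ψ, σ) = d(ψ', σ) d(θ, σ) ^ ε` for all `σ`, and for the numbers `A(χ, φ)` the same is
true up to a factor in the field generated by the values of `χ` and `θ`. For all automorphisms `σ`,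
`τ` of `ℂ` we have `d(χ, σ) d(θ^τ, σ) ^ ε = d(χ^τ, σ) d(θ, σ) ^ ε`.

(C) Suppose that Stark's conjecture is true for `σ` and the characters with rational values of
`Gal(L/K)` (this is a theorem of Tate). Then `d(χ, σ) = d(θ, σ) ^ ε` in (B), and Stark's conjecture
for `χ` and `σ` is equivalent to Stark's conjecture for `θ` and `σ`. If the group is tame, then
Stark's conjecture for `σ` is true for all characters of `Gal(L/K)` if and only if it is true for
the characters `θ` of the abelian extensions `L / L^T`, `T` special.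
-/

set_option autoImplicit false

namespace Pool.Agent.Results.MP_46b841_nt.AbelianCentralizers

open NumberField Matrix Pool.Agent.K4H74 Pool.Agent.K4H74.SK Pool.Agent.K4H77 Run7.h200.SP
  Run7.h963.SX
open scoped MatrixGroups

/-- The linear character `θ` of `T` is not fixed by the elements of the normalizer of `T` outside
of `T`. -/
def Regular {A : Type} [Group A] {T : Subgroup A} (θ : T →* ℂˣ) : Prop :=
  ∀ x : A, (∀ s (hs : s ∈ T), ∃ h : x⁻¹ * s * x ∈ T, θ ⟨x⁻¹ * s * x, h⟩ = θ ⟨s, hs⟩) → x ∈ T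

/-- The linear character `θ` of the subgroup `T` of the Galois group of `L / K`, as a character of
the Galois group of `L / F`, where `F` is the fixed field of `T`. -/
noncomputable def overT {E : Ext} {T : Subgroup (G E)} (θ : T →* ℂˣ) : Pair :=
  ⟨sub E T, fun h => Pool.Agent.R389.ext T (fun y => ((θ y : ℂˣ) : ℂ)) (res h)⟩

/-- `a` is one of the numbers `A(χ, φ)`. -/
def IsStarkNumber (c : Pair → ℂ) (x : Pair) (a : ℂ) : Prop :=
  ∃ Λ : Y x.1 →ₗ[ℂ] Y x.1, IsStarkMap Λ ∧ IsA c Λ x.2 a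

/-- There are characters `ψ`, `ψ'` with rational values with `χ + ψ = ψ' + ε Ind θ`,
`L*(0, χ) L*(0, ψ) = L*(0, ψ') L*(0, θ) ^ ε`, `d(χ, σ) d(ψ, σ) = d(ψ', σ) d(θ, σ) ^ ε` for all `σ`
and, up to a factor in the field generated by the values of `χ` and `θ`,
`A(χ, φ) A(ψ, φ₁) = A(ψ', φ₂) A(θ, φ₃) ^ ε`. -/
def Relation {E : Ext} (χ : G E → ℂ) {T : Subgroup (G E)} (θ : T →* ℂˣ) (ε : ℤ) : Prop :=
  ∃ ψ ψ' : G E → ℂ, IsChr ψ ∧ IsChr ψ' ∧ RatVal ψ ∧ RatVal ψ' ∧
    (∀ g, χ g + ψ g = ψ' g + ε * Pool.Agent.R389.ind T (fun y => ((θ y : ℂˣ) : ℂ)) g) ∧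
    ∀ c : Pair → ℂ, IsLeading c →
      c ⟨E, χ⟩ * c ⟨E, ψ⟩ = c ⟨E, ψ'⟩ * c (overT θ) ^ ε ∧
      (∀ (σ : ℂ ≃+* ℂ) (d dψ dψ' d' : ℂˣ), IsDefect c σ χ d → IsDefect c σ ψ dψ →
        IsDefect c σ ψ' dψ' → IsDefect c σ (overT θ).2 d' → d * dψ = dψ' * d' ^ ε) ∧
      ∀ a aψ aψ' a' : ℂ, IsStarkNumber c ⟨E, χ⟩ a → IsStarkNumber c ⟨E, ψ⟩ aψ →
        IsStarkNumber c ⟨E, ψ'⟩ aψ' → IsStarkNumber c (overT θ) a' →
        ∃ α : ℂ, α ∈ IntermediateField.adjoin ℚ (Set.range χ ∪ Set.range (overT θ).2) ∧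
          a * aψ = α * aψ' * a' ^ ε

/-- `d(χ, σ) d(θ^τ, σ) ^ ε = d(χ^τ, σ) d(θ, σ) ^ ε` for all `σ`, `τ`. -/
def Conjugates {E : Ext} (χ : G E → ℂ) {T : Subgroup (G E)} (θ : T →* ℂˣ) (ε : ℤ) : Prop :=
  ∀ (c : Pair → ℂ) (σ τ : ℂ ≃+* ℂ) (θτ : T →* ℂˣ) (d e d' e' : ℂˣ), IsLeading c →
    (∀ t, ((θτ t : ℂˣ) : ℂ) = τ ((θ t : ℂˣ) : ℂ)) →
    IsDefect c σ χ d → IsDefect c σ (fun g => τ (χ g)) e → IsDefect c σ (overT θ).2 d' →
    IsDefect c σ (overT θτ).2 e' → d * e' ^ ε = e * d' ^ ε

/-- Stark's conjecture for `σ` and the characters with rational values of `Gal(L/K)`. -/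
def RationalCase (E : Ext) (c : Pair → ℂ) (σ : ℂ ≃+* ℂ) : Prop :=
  ∀ χ : G E → ℂ, IsChr χ → RatVal χ → Stark c σ χ

/-- the statements about the groups -/
lemma groups (A : Type) [Group A] [Finite A] :
      (∀ (F : Type) [Field F] (φ : A →* SL(2, F)), Function.Injective φ → Tame A) ∧
      (∀ (F : Type) [Field F] (φ : A →* PGL(2, F)), Function.Injective φ → Tame A) ∧
      ((∀ g : A, g ≠ 1 → ∀ x y : A, x * g = g * x → y * g = g * y → x * y = y * x) → Tame A) ∧
      (∀ g : A, (Nat.card (Subgroup.centralizer {g})).Prime →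
        Special (Subgroup.centralizer {g})) ∧
      (Tame A → ∀ χ : A → ℂ, IsIrrChr χ → ∀ g : A, (¬ ∃ q : ℚ, χ g = q) →
        ∃ T : Subgroup A, Special T ∧ g ∈ T) := by
  have hT : ∀ g x : A, x ∈ Subgroup.centralizer {g} ↔ x * g = g * x := by
    intro g x
    rw [Subgroup.mem_centralizer_singleton_iff]
  refine ⟨fun F _ φ hφ => tame_SL φ hφ, fun F _ φ hφ => tame_PGL φ hφ, fun h g => ?_,
    fun g hp => ?_, fun hA χ hχ g hn => hA.chr (mem_irr hχ) hn⟩
  · by_cases hg : g = 1
    · left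
      intro k _
      exact ⟨1, by rw [hg]; simp⟩
    · right
      refine ⟨Subgroup.centralizer {g}, ⟨fun x hx y hy => ?_, 1, one_mem _, one_mul 1, ?_⟩,
        (hT g g).mpr rfl⟩
      · exact h g hg x y ((hT g x).mp hx) ((hT g y).mp hy)
      · intro t ht t1 _ x hx
        exact (hT g x).mpr (h t t1 x g hx ((hT g t).mp ht).symm)
  · have := Fact.mk hp
    have key : ∀ t ∈ Subgroup.centralizer {g}, t ≠ 1 → ∀ y ∈ Subgroup.centralizer {g},
        ∀ x : A, x * t = t * x → x * y = y * x := by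
      intro t ht t1 y hy x hx
      have h1 : (⟨y, hy⟩ : Subgroup.centralizer {g}) ∈ Subgroup.zpowers ⟨t, ht⟩ :=
        mem_zpowers_of_prime_card rfl (fun h => t1 (congrArg Subtype.val h))
      obtain ⟨k, hk⟩ := h1
      have h2 : t ^ k = y := congrArg Subtype.val hk
      rw [← h2]
      exact (show Commute x t from hx).zpow_right k
    refine ⟨fun x hx y hy => ?_, 1, one_mem _, one_mul 1, ?_⟩
    · by_cases x1 : x = 1
      · rw [x1, one_mul, mul_one]
      · exact key x hx x1 y hy x rfl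
    · intro t ht t1 _ x hx
      exact (hT g x).mpr (key t ht t1 g ((hT g g).mpr rfl) x hx)

theorem result :
    -- the systems of leading coefficients and the defects exist
    (∃ c : Pair → ℂ, IsLeading c) ∧
    (∀ c : Pair → ℂ, IsLeading c → ∀ (σ : ℂ ≃+* ℂ) (E : Ext) (χ : G E → ℂ), IsChr χ →
      ∃! d : ℂˣ, IsDefect c σ χ d) ∧
    -- (A)
    (∀ (A : Type) [Group A] [Finite A],
      (∀ (F : Type) [Field F] (φ : A →* SL(2, F)), Function.Injective φ → Tame A) ∧
      (∀ (F : Type) [Field F] (φ : A →* PGL(2, F)), Function.Injective φ → Tame A) ∧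
      ((∀ g : A, g ≠ 1 → ∀ x y : A, x * g = g * x → y * g = g * y → x * y = y * x) → Tame A) ∧
      (∀ g : A, (Nat.card (Subgroup.centralizer {g})).Prime →
        Special (Subgroup.centralizer {g})) ∧
      (Tame A → ∀ χ : A → ℂ, IsIrrChr χ → ∀ g : A, (¬ ∃ q : ℚ, χ g = q) →
        ∃ T : Subgroup A, Special T ∧ g ∈ T)) ∧
    ∀ E : Ext,
      -- (B)
      (∀ (χ : G E → ℂ) (T : Subgroup (G E)) (g : G E), IsIrrChr χ → Special T → g ∈ T →
        (¬ ∃ q : ℚ, χ g = q) →
        ∃ (θ : T →* ℂˣ) (ε : ℤ), Regular θ ∧ (ε = 1 ∨ ε = -1) ∧ Relation χ θ ε ∧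
          Conjugates χ θ ε ∧
          -- (C)
          ∀ (c : Pair → ℂ) (σ : ℂ ≃+* ℂ), IsLeading c → RationalCase E c σ →
            (∀ d d' : ℂˣ, IsDefect c σ χ d → IsDefect c σ (overT θ).2 d' → d = d' ^ ε) ∧
            (Stark c σ χ ↔ Stark c σ (overT θ).2)) ∧
      (Tame (G E) → ∀ (c : Pair → ℂ) (σ : ℂ ≃+* ℂ), IsLeading c → RationalCase E c σ →
        ((∀ χ : G E → ℂ, IsChr χ → Stark c σ χ) ↔
          ∀ (T : Subgroup (G E)) (θ : T →* ℂˣ), Special T → Regular θ →
            Stark c σ (overT θ).2)) := by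
  classical
  have hover : ∀ {E : Ext} {T : Subgroup (G E)} (θ : T →* ℂˣ), overT θ =
      ⟨sub E T, lin (subChr E T θ)⟩ := fun {E T} θ => by
    rw [overT, over_eq]
  have hdef : ∀ {E : Ext} {T : Subgroup (G E)} (θ : T →* ℂˣ) (c : Pair → ℂ) (σ : ℂ ≃+* ℂ) (d : ℂˣ),
      IsDefect c σ (overT θ).2 d → IsDefect c σ (lin (subChr E T θ)) d := by
    intro E T θ c σ d h
    rw [hover] at h
    exact h
  have hst : ∀ {E : Ext} {T : Subgroup (G E)} (θ : T →* ℂˣ) (c : Pair → ℂ) (σ : ℂ ≃+* ℂ),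
      Stark c σ (overT θ).2 ↔ Stark c σ (lin (subChr E T θ)) := by
    intro E T θ c σ
    rw [hover]
  have hval : ∀ (E : Ext) (c : Pair → ℂ) (hc : IsLeading c) (σ : ℂ ≃+* ℂ) (χ : G E → ℂ),
      IsChr χ → (Stark c σ χ ↔ (inv hc σ).val E.K E.L χ = 1) := fun E c hc σ χ hχ =>
    ⟨to_val hc σ hχ, of_val hc σ hχ⟩
  refine ⟨exists_isLeading, fun c hc σ E χ hχ => existsUnique_defect hc σ hχ,
    fun A _ _ => groups A, fun E => ⟨?_, ?_⟩⟩
  · intro χ T g hχ hT hg hn
    have hfin : Finite (G E) := inferInstanceAs (Finite (E.L ≃ₐ[E.K] E.L))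
    obtain ⟨θ, ε, ψ, ψ', h2, h3, h4, h5, h6, h7, h8, h9, h0⟩ := main_ext (mem_irr hχ) hT hg hn
    refine ⟨θ, ε, ?_, h3, ⟨ψ, ψ', h4, h5, h6, h7, ?_, ?_⟩, ?_, ?_⟩
    · intro x hx
      exact h2 x (rel_of hx)
    · intro g
      have h10 := congrFun h8 g
      rw [Pi.add_apply, Pi.add_apply, Pi.smul_apply, zsmul_eq_mul] at h10
      exact h10
    · intro c hc
      obtain ⟨n1, n2⟩ := rel_num hc (x := ⟨E, χ⟩) (y := ⟨E, ψ⟩) (y' := ⟨E, ψ'⟩)
        (u := ⟨sub E T, lin (subChr E T θ)⟩) hχ.1 h4 h5 (isChr_lin (subChr E T θ)) h6 h7 h9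
      rw [hover]
      refine ⟨n1, ?_, n2⟩
      intro σ d dψ dψ' d' hd hdψ hdψ' hd'
      have h10 := h9 ℂˣ (inv hc σ)
      rw [(isDefect_iff hc σ hχ.1).mp hd, (isDefect_iff hc σ h4).mp hdψ,
        (isDefect_iff hc σ h5).mp hdψ'] at h10
      rw [h10, (isDefect_iff hc σ (isChr_lin (subChr E T θ))).mp hd']
    · intro c σ τ θτ d e d' e' hc hθ hd he hd' he'
      have hθτ : θτ = gal τ θ := by
        ext t
        rw [hθ t, gal_apply]
      subst hθτ
      have hχτ : IsChr (fun g => τ (χ g)) := isChr_iff.mpr (Pool.Agent.K4H74.SC.isChar_of_mem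
        (AddSubmonoid.subset_closure (irr_gal τ (mem_irr hχ))))
      have a1 := h9 ℂˣ (inv hc σ)
      have a2 := h0 τ ℂˣ (inv hc σ)
      rw [(isDefect_iff hc σ hχ.1).mp hd,
        (isDefect_iff hc σ (isChr_lin (subChr E T θ))).mp (hdef θ c σ d' hd')] at a1
      have k1 := (isDefect_iff hc σ hχτ).mp he
      have k2 := (isDefect_iff hc σ (isChr_lin (subChr E T (gal τ θ)))).mp (hdef _ c σ e' he')
      exact quot_rel a1 ((congrArg (fun v => v * (inv hc σ).val E.K E.L ψ) k1).symm.trans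
        (a2.trans (congrArg (fun v => (inv hc σ).val E.K E.L ψ' * v ^ ε) k2)))
    · intro c σ hc hR
      have h10 := h9 ℂˣ (inv hc σ)
      rw [(hval E c hc σ ψ h4).mp (hR ψ h4 h6), (hval E c hc σ ψ' h5).mp (hR ψ' h5 h7), mul_one,
        one_mul] at h10
      refine ⟨fun d d' hd hd' => ?_, ?_⟩
      · rw [← (isDefect_iff hc σ hχ.1).mp hd, h10,
          (isDefect_iff hc σ (isChr_lin (subChr E T θ))).mp (hdef θ c σ d' hd')]
      · rw [hst, hval E c hc σ χ hχ.1, hval _ c hc σ _ (isChr_lin (subChr E T θ)), h10]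
        rcases h3 with h | h
        · rw [h, zpow_one]
        · rw [h, _root_.zpow_neg, zpow_one, inv_eq_one]
  · intro hE c σ hc hR
    have hfin : Finite (G E) := inferInstanceAs (Finite (E.L ≃ₐ[E.K] E.L))
    constructor
    · intro hS T θ _ _
      rw [hst, hval _ c hc σ _ (isChr_lin (subChr E T θ))]
      have h1 : IsChr (Pool.Agent.R389.ind (G := G E) T (fun h => ((θ h : ℂˣ) : ℂ))) :=
        isChr_iff.mpr (SC.isChar_ind _ (ST.IsChar.lc _))
      have h2 := (hval E c hc σ _ h1).mp (hS _ h1)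
      rw [← h2]
      exact val_sub (inv hc σ) E T θ
    · intro hS χ hχ
      rw [hval E c hc σ χ hχ]
      refine val_closure (K := E.K) (L := E.L) (inv hc σ) (fun f hf => ?_) (isChr_iff.mp hχ)
      have hf' : IsChr f := isChr_iff.mpr (Pool.Agent.K4H74.SC.isChar_of_mem
        (AddSubmonoid.subset_closure hf))
      have hf0 : f ∈ Pool.Agent.H541R3.ART.Irr (G E) := hf
      by_cases hr : RatVal f
      · exact (hval E c hc σ f hf').mp (hR f hf' hr)
      · unfold RatVal at hr
        push Not at hr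
        obtain ⟨g, hg⟩ := hr
        have hn : ¬ ∃ q : ℚ, f g = q := fun ⟨q, hq⟩ => hg q hq
        obtain ⟨T, h1, hgT⟩ := hE.chr hf0 hn
        obtain ⟨θ, ε, ψ, ψ', h2, h3, h4, h5, h6, h7, h8, h9, -⟩ := main_ext hf0 h1 hgT hn
        have h10 := h9 ℂˣ (inv hc σ)
        rw [(hval E c hc σ ψ h4).mp (hR ψ h4 h6), (hval E c hc σ ψ' h5).mp (hR ψ' h5 h7), mul_one,
          one_mul] at h10
        have h11 := hS T θ h1 (fun x hx => h2 x (rel_of hx))
        rw [hst, hval _ c hc σ _ (isChr_lin (subChr E T θ))] at h11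
        rw [h11, _root_.one_zpow] at h10
        exact h10

end Pool.Agent.Results.MP_46b841_nt.AbelianCentralizers
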