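import Mathlib
import Pool.Agent.Run7.h200.SP.Main

/-!
# Stark's conjecture for the alternating groups

The definitions of `Ext`, `G`, `IsChr`, `Pair`, `IsLeading`, `Stark`, `lin` are in
`Pool.Agent.K4H74.SC.Core`, that of `IsDefect` in `Pool.Agent.K4H77.SL.Def` (the defect of `χ` and
`σ` is the number `d` with `A(χ, φ)^σ = d A(χ^σ, φ)` for all `φ`; Stark's conjecture says `d = 1`),
those of `parts`, `sub`, `res` in `Pool.Agent.Run7.h200.SP.Defs`, and those of `HasCycles`,
`RatVal`, `IsIrrChr` in `Pool.Agent.Run7.h200.SP.Main`. `S` is the set of the infinite places.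

Let `n ≥ 2`. For every partition `P` of `n` into different odd parts whose product `N` is not a
square there are a subgroup `H_P` of odd order of the alternating group `A_n` and a linear character
`λ_P` of `H_P`, whose order divides the product of the primes which divide `N`, two permutations
`g_P`, `g'_P` with the cycle lengths `P`, conjugate under an odd permutation, and a square root
`D_P` of `(-1)^((N - 1) / 2) N` such that for every Galois extension `L / K` of number fields with
the Galois group `A_n`: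

(1) For every character `χ` there are integers `r_P` and characters `ψ`, `ψ'` with rational values
with `χ(g_P) - χ(g'_P) = r_P D_P` and
`d(χ, σ) d(ψ, σ) = d(ψ', σ) ∏ d(λ_P, σ) ^ (r_P)` for all `σ`, where `λ_P` is regarded as a character
of the Galois group of `L / L^(H_P)`. If `χ` is irreducible, then `r_P = 0` with at most one
exception, and in the exceptional case `r_P = ± 1`.

(2) Suppose that Stark's conjecture is true for the characters with rational values of `Gal(L/K)`
(this is a theorem of Tate). Then `d(χ, σ) = ∏ d(λ_P, σ) ^ (r_P)` for all characters `χ`; Stark's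
conjecture is true for all characters of `Gal(L/K)` if and only if it is true for the linear
characters `λ_P`; and for an irreducible character `χ` with irrational values there is a `P` with
`χ(g_P) - χ(g'_P) = ± D_P`, and Stark's conjecture for `χ` is equivalent to Stark's conjecture for
`λ_P`.
-/

set_option autoImplicit false

namespace Pool.Agent.Results.MP_46b841_nt.AlternatingGroups

open Equiv NumberField Pool.Agent.K4H74 Pool.Agent.K4H74.SK Run7.h200.SP

/-- For every partition `P` of `n` into different odd parts with a product which is not a square: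
a subgroup `H P` of `A_n` with a linear character `lam P`, two elements `g P` and `g' P` of `A_n`,
and a number `D P`. -/
structure Sys (n : ℕ) where
  /-- the subgroups -/
  H : parts n → Subgroup (alternatingGroup (Fin n))
  /-- the linear characters -/
  lam : ∀ P, H P →* ℂˣ
  /-- the permutations -/
  g : parts n → alternatingGroup (Fin n)
  /-- the second permutations -/
  g' : parts n → alternatingGroup (Fin n)
  /-- the numbers -/
  D : parts n → ℂ

/-- `H P` has odd order, the order of `lam P` divides the product of the primes which divide the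
product `N` of the parts of `P`, the cycle lengths of `g P` are the elements of `P`, `g' P` is
conjugate to `g P` under an odd permutation, and `(D P) ^ 2 = (-1) ^ ((N - 1) / 2) N`. -/
def Sys.Good {n : ℕ} (s : Sys n) : Prop :=
  ∀ P, Odd (Nat.card (s.H P)) ∧
    (∀ k : ℕ, (∀ q : ℕ, q.Prime → q ∣ ∏ m ∈ P.1, m → q ∣ k) → ∀ h, s.lam P h ^ k = 1) ∧
    HasCycles (s.g P : Perm (Fin n)) P.1 ∧
    (∃ t : Perm (Fin n), Perm.sign t = -1 ∧ (s.g' P : Perm (Fin n)) = t * s.g P * t⁻¹) ∧
    s.D P ^ 2 = ((ZMod.χ₄ ((∏ m ∈ P.1, m : ℕ) : ZMod 4) : ℤ) : ℂ) * ((∏ m ∈ P.1, m : ℕ) : ℂ)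

/-- The linear character `lam P` of `H P`, extended by zero to `A_n`. -/
noncomputable def Sys.lam0 {n : ℕ} (s : Sys n) (P : parts n) (x : alternatingGroup (Fin n)) : ℂ :=
  Pool.Agent.R389.ext (s.H P) (fun y => ((s.lam P y : ℂˣ) : ℂ)) x

/-- Let `A_n` be identified with the Galois group of `L / K` by `e`. The linear character `lam P`,
as a character of the Galois group of `L / F`, where `F` is the fixed field of `H P` (the elements
of the Galois group of `L / F` are the elements of `H P`). -/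
noncomputable def Sys.chr {n : ℕ} (s : Sys n) {E : Ext} (e : alternatingGroup (Fin n) ≃* G E)
    (P : parts n) : Pair :=
  ⟨sub E ((s.H P).map (e : alternatingGroup (Fin n) →* G E)), fun h => s.lam0 P (e.symm (res h))⟩

lemma Sys.chr_eq {n : ℕ} (s : Sys n) {E : Ext} (e : alternatingGroup (Fin n) ≃* G E)
    (P : parts n) : s.chr e P =
      ⟨sub E ((s.H P).map (e : alternatingGroup (Fin n) →* G E)), chrOver E e (s.H P) (s.lam P)⟩ := by
  rw [← chrOver_eq]
  rfl

/-- `χ(g_P) - χ(g'_P) = r_P D_P` for all `P` -/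
def Sys.Coeff {n : ℕ} (s : Sys n) {E : Ext} (e : alternatingGroup (Fin n) ≃* G E) (χ : G E → ℂ)
    (r : parts n → ℤ) : Prop :=
  ∀ P, χ (e (s.g P)) - χ (e (s.g' P)) = r P * s.D P

/-- The first part: the relation without hypotheses. -/
def Sys.One {n : ℕ} (s : Sys n) {E : Ext} (e : alternatingGroup (Fin n) ≃* G E) : Prop :=
  ∀ χ : G E → ℂ, IsChr χ → ∃ (r : parts n → ℤ) (ψ ψ' : G E → ℂ),
    IsChr ψ ∧ IsChr ψ' ∧ RatVal ψ ∧ RatVal ψ' ∧ s.Coeff e χ r ∧ (IsIrrChr χ → ∑ P, r P ^ 2 ≤ 1) ∧
    ∀ (c : Pair → ℂ) (σ : ℂ ≃+* ℂ) (d dψ dψ' : ℂˣ) (d' : parts n → ℂˣ), IsLeading c →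
      IsDefect c σ χ d → IsDefect c σ ψ dψ → IsDefect c σ ψ' dψ' →
      (∀ P, IsDefect c σ (s.chr e P).2 (d' P)) → d * dψ = dψ' * ∏ P, d' P ^ r P

/-- The second part: the defects of the characters are the products of the powers of the defects of
the characters `lam P`. -/
def Sys.Two {n : ℕ} (s : Sys n) {E : Ext} (e : alternatingGroup (Fin n) ≃* G E) (c : Pair → ℂ)
    (σ : ℂ ≃+* ℂ) : Prop :=
  ∀ χ : G E → ℂ, IsChr χ → ∃ r : parts n → ℤ, s.Coeff e χ r ∧
    ∀ (d : ℂˣ) (d' : parts n → ℂˣ), IsDefect c σ χ d →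
      (∀ P, IsDefect c σ (s.chr e P).2 (d' P)) → d = ∏ P, d' P ^ r P

/-- The third part: the single irreducible characters. -/
def Sys.Three {n : ℕ} (s : Sys n) {E : Ext} (e : alternatingGroup (Fin n) ≃* G E) (c : Pair → ℂ)
    (σ : ℂ ≃+* ℂ) : Prop :=
  ∀ χ : G E → ℂ, IsIrrChr χ → RatVal χ ∨ ∃ P,
    (χ (e (s.g P)) - χ (e (s.g' P)) = s.D P ∨ χ (e (s.g P)) - χ (e (s.g' P)) = - s.D P) ∧
      (Stark c σ χ ↔ Stark c σ (s.chr e P).2)

theorem result (n : ℕ) (hn : 2 ≤ n) :
    ∃ s : Sys n, s.Good ∧ ∀ (E : Ext) (e : alternatingGroup (Fin n) ≃* G E), s.One e ∧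
      ∀ (c : Pair → ℂ) (σ : ℂ ≃+* ℂ), IsLeading c →
        (∀ χ : G E → ℂ, IsChr χ → RatVal χ → Stark c σ χ) →
        s.Two e c σ ∧ s.Three e c σ ∧
          ((∀ χ : G E → ℂ, IsChr χ → Stark c σ χ) ↔ ∀ P, Stark c σ (s.chr e P).2) := by
  classical
  obtain ⟨H, lam, g, g', D, h0, hE⟩ := main (Fin n) (by rw [Fintype.card_fin]; exact hn) n
    (Fintype.card_fin n)
  have hval : ∀ (E : Ext) (c : Pair → ℂ) (hc : IsLeading c) (σ : ℂ ≃+* ℂ) (χ : G E → ℂ),
      IsChr χ → (Stark c σ χ ↔ (inv hc σ).val E.K E.L χ = 1) := fun E c hc σ χ hχ =>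
    ⟨to_val hc σ hχ, of_val hc σ hχ⟩
  -- the consequences for the defects, given the hypothesis on the rational valued characters
  have key : ∀ (E : Ext) (e : alternatingGroup (Fin n) ≃* G E) (c : Pair → ℂ) (hc : IsLeading c)
      (σ : ℂ ≃+* ℂ), (∀ χ : G E → ℂ, IsChr χ → RatVal χ → Stark c σ χ) →
      ∀ χ : G E → ℂ, IsChr χ → ∃ r : parts n → ℤ,
        (∀ P, χ (e (g P)) - χ (e (g' P)) = r P * D P) ∧ ((∀ P, r P = 0) → RatVal χ) ∧
        (IsIrrChr χ → ∑ P, r P ^ 2 ≤ 1) ∧
        (inv hc σ).val E.K E.L χ = ∏ P, (inv hc σ).val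
          (sub E ((H P).map (e : alternatingGroup (Fin n) →* G E))).K
          (sub E ((H P).map (e : alternatingGroup (Fin n) →* G E))).L
          (chrOver E e (H P) (lam P)) ^ r P := by
    intro E e c hc σ hR χ hχ
    obtain ⟨r, ψ, ψ', h1, h2, h3, h4, h5, h6, h7, h8⟩ := hE E e χ hχ
    refine ⟨r, h5, h6, h7, ?_⟩
    have h9 := h8 ℂˣ (inv hc σ)
    rw [(hval E c hc σ ψ h1).mp (hR ψ h1 h3), (hval E c hc σ ψ' h2).mp (hR ψ' h2 h4), mul_one,
      one_mul] at h9
    exact h9
  let s : Sys n := ⟨H, lam, g, g', D⟩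
  have hdef : ∀ (E : Ext) (e : alternatingGroup (Fin n) ≃* G E) (c : Pair → ℂ) (σ : ℂ ≃+* ℂ)
      (P : parts n) (d : ℂˣ), IsDefect c σ (s.chr e P).2 d →
      IsDefect c σ (chrOver E e (H P) (lam P)) d := by
    intro E e c σ P d h
    rw [Sys.chr_eq] at h
    exact h
  have hst : ∀ (E : Ext) (e : alternatingGroup (Fin n) ≃* G E) (c : Pair → ℂ) (σ : ℂ ≃+* ℂ)
      (P : parts n), Stark c σ (s.chr e P).2 ↔ Stark c σ (chrOver E e (H P) (lam P)) := by
    intro E e c σ P
    rw [Sys.chr_eq]
  refine ⟨s, h0, fun E e => ⟨?_, ?_⟩⟩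
  · intro χ hχ
    obtain ⟨r, ψ, ψ', h1, h2, h3, h4, h5, h6, h7, h8⟩ := hE E e χ hχ
    refine ⟨r, ψ, ψ', h1, h2, h3, h4, h5, h7, ?_⟩
    intro c σ d dψ dψ' d' hc hd hdψ hdψ' hd'
    have h9 := h8 ℂˣ (inv hc σ)
    rw [(isDefect_iff hc σ hχ).mp hd, (isDefect_iff hc σ h1).mp hdψ,
      (isDefect_iff hc σ h2).mp hdψ'] at h9
    rw [h9]
    congr 1
    refine Finset.prod_congr rfl fun P _ => ?_
    rw [(isDefect_iff hc σ (isChr_chrOver E e (H P) (lam P))).mp (hdef E e c σ P _ (hd' P))]
  · intro c σ hc hR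
    refine ⟨?_, ?_, ⟨?_, ?_⟩⟩
    · intro χ hχ
      obtain ⟨r, h1, -, -, h2⟩ := key E e c hc σ hR χ hχ
      refine ⟨r, h1, ?_⟩
      intro d d' hd hd'
      rw [(isDefect_iff hc σ hχ).mp hd] at h2
      rw [h2]
      refine Finset.prod_congr rfl fun P _ => ?_
      rw [(isDefect_iff hc σ (isChr_chrOver E e (H P) (lam P))).mp (hdef E e c σ P _ (hd' P))]
    · intro χ hirr
      obtain ⟨r, h1, h2, h3, h4⟩ := key E e c hc σ hR χ hirr.1
      by_cases hr : ∀ P, r P = 0
      · exact Or.inl (h2 hr)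
      · right
        push Not at hr
        obtain ⟨P, hP⟩ := hr
        have h5 := h3 hirr
        have h6 : ∀ Q, 0 ≤ r Q ^ 2 := fun Q => sq_nonneg _
        have h7 : 1 ≤ r P ^ 2 := by
          have : 0 < r P ^ 2 := by positivity
          omega
        have h8 : ∀ Q, Q ≠ P → r Q = 0 := by
          intro Q hQ
          by_contra h
          have h9 : 0 < r Q ^ 2 := by positivity
          have h10 : ∑ R ∈ ({P, Q} : Finset (parts n)), r R ^ 2 ≤ ∑ R, r R ^ 2 :=
            Finset.sum_le_sum_of_subset_of_nonneg (Finset.subset_univ _) fun R _ _ => h6 R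
          rw [Finset.sum_pair hQ.symm] at h10
          omega
        have h9 : r P ^ 2 = 1 := by
          have h10 : r P ^ 2 ≤ ∑ R, r R ^ 2 :=
            Finset.single_le_sum (f := fun R => r R ^ 2) (fun R _ => h6 R) (Finset.mem_univ P)
          omega
        have h10 : r P = 1 ∨ r P = -1 := sq_eq_sq_iff_eq_or_eq_neg.mp (by rw [h9, one_pow])
        rw [Finset.prod_eq_single P (fun Q _ hQ => by rw [h8 Q hQ, zpow_zero])
          (fun h => absurd (Finset.mem_univ _) h)] at h4
        refine ⟨P, ?_, ?_⟩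
        · rw [h1 P]
          rcases h10 with h | h
          · left
            rw [h]
            push_cast
            ring
          · right
            rw [h]
            push_cast
            ring
        · rw [hst, hval E c hc σ χ hirr.1, hval _ c hc σ _ (isChr_chrOver E e (H P) (lam P)), h4]
          rcases h10 with h | h
          · rw [h, zpow_one]
          · rw [h, zpow_neg, zpow_one, inv_eq_one]
    · intro hS P
      rw [hst, hval _ c hc σ _ (isChr_chrOver E e (H P) (lam P)), val_chrOver]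
      have hfin : Finite (G E) := inferInstanceAs (Finite (E.L ≃ₐ[E.K] E.L))
      have h1 : IsChr (Pool.Agent.R389.ind (G := G E)
          ((H P).map (e : alternatingGroup (Fin n) →* G E))
          (fun h => ((mapChr e (H P) (lam P) h : ℂˣ) : ℂ))) :=
        isChr_iff.mpr (SC.isChar_ind _ (ST.IsChar.lc _))
      exact (hval E c hc σ _ h1).mp (hS _ h1)
    · intro hS χ hχ
      obtain ⟨r, -, -, -, h2⟩ := key E e c hc σ hR χ hχ
      rw [hval E c hc σ χ hχ, h2]
      refine Finset.prod_eq_one fun P _ => ?_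
      rw [(hval _ c hc σ _ (isChr_chrOver E e (H P) (lam P))).mp ((hst E e c σ P).mp (hS P)), one_zpow]

end Pool.Agent.Results.MP_46b841_nt.AlternatingGroups
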