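import Mathlib
import Pool.Agent.Run7.h453.ST.Main
import Pool.Agent.K4H74.SC.Lead

/-!
# Chebotarev's theorem at `s = 0`, and Stark's conjecture as a limit formula

`L / K` is a finite Galois extension of number fields with group `G`. For a function `f` on `G` let
`f(p^n)` be the mean value of `f` over the elements of `G` which induce `x ↦ x ^ (N(p)^n)` modulo a
prime of `L` over `p` (ramified primes included, for a character `χ` this is the coefficient of
`log L(s, χ) = ∑ χ(p^n) / (n N(p)^(n s))`), and for `γ > π / 2`, `T > 0` let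

  `S_f(T) = ∑_(p, n) (f(p^n) / n) e^(i γ u) / Γ(1 + u)`,  `u = n log N(p) / T`.

The primes are counted with the weight `1` (this is the point `s = 0`, outside of the region of
convergence of the Euler product), the sum converges absolutely and depends linearly on `f`.

(A) *Unconditionally*: let `σ ∈ G` have the order `n`, let `D` be its division (the `g` which generate
a subgroup conjugate to `⟨σ⟩`) and `F_d` the fixed field of `σ^d`. Then

  `S_D(T) = (|D| / |G|) (- (Fix(σ) - 1) (log T - Λ_γ) + (n / φ(n)) ∑_(d | n) (μ(d) / d) r_d) + O(1 / T)`,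

`r_d = log (h R / w)(F_d) - π i (N_d - 1)`, where `Fix(σ)` is the number of the infinite places of
`L` fixed by `σ`, `Λ_γ = ∫_0^∞ (e^(-t) - e^(i γ t) / Γ(1 + t)) dt / t`, `h`, `R`, `w` are the class
number, the regulator and the number of roots of unity, and `N_d` is the number of the zeros of the
zeta function of `F_d` in `(0, 1)` (so that the imaginary parts see the real zeros; `N_d - 1` is
written as the sum of the orders at the points of `(0, 1]`). `Fix(σ) - 1` is the value at `σ` of the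
character of Stark's module `X ⊗ ℚ` (and of the units of `L`).

(B) For every function `χ` on `G` and every meromorphic continuation `Φ` of
`exp (∑ χ(p^n) / (n N(p)^(n s)))` (for the characters it exists by Brauer's theorem), if `m` is the
order of `Φ` at `0` and `c` the leading coefficient there, then `S_χ(T) = - m (log T - Λ_γ) + r + O(1 / T)`
with `exp r = c`; so `exp (-S_χ(T)) / T^m` converges to `e^(-m Λ_γ) / c`. No hypothesis on the zeros.

(C) Stark's conjecture. With the regulator `R(χ, φ)`,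
`A(χ, φ) = lim R(χ, φ) e^(m Λ_γ) exp (-S_χ(T)) / T^m`, and Stark's conjecture for `χ` and `σ ∈ Aut(ℂ)`
is true if and only if for all `φ` the limit for `χ^σ` is the conjugate of the limit for `χ`; here
`S_χ = ∑_g χ(g) S_g` and `S_(χ^σ) = ∑_g σ(χ(g)) S_g` with the same class sums `S_g`. The limits may be
taken along any sequence (any filter `l ≤ atTop`).

The definitions of `Ext`, `G`, `IsChr`, `logTerm`, `IsLeading`, `IsStarkMap`, `IsReg`, `Stark` are in
`Pool.Agent.K4H74.SC.Core`, that of `frobMean` in `Pool.Agent.K4H74.SC.Frob`.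
-/

set_option autoImplicit false
set_option linter.unusedSectionVars false

namespace Pool.Agent.Results.MP_46b841_nt.ChebotarevAtZero

open NumberField IntermediateField IsDedekindDomain Filter Topology Set
open Pool.Agent.K4H74 Pool.Agent.K4H74.SK
open scoped ArithmeticFunction.Moebius

section sums

variable {K L : Type} [Field K] [NumberField K] [Field L] [NumberField L] [Algebra K L]

/-- `(f(p^n) / n) e^(i γ u) / Γ(1 + u)`, `u = n log N(p) / T`, for `x = (p, n)`; `f(p^n)` is the mean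
`Pool.Agent.K4H74.SC.frobMean`. -/
noncomputable def term (f : (L ≃ₐ[K] L) → ℂ) (γ T : ℝ) (x : HeightOneSpectrum (𝓞 K) × ℕ+) : ℂ :=
  SC.frobMean K L f x.1.asIdeal x.2 / (x.2 : ℕ) *
    Complex.exp ((γ * ((x.2 : ℕ) * Real.log (Ideal.absNorm x.1.asIdeal : ℕ) / T) : ℝ) * Complex.I) *
    ((Real.Gamma (1 + (x.2 : ℕ) * Real.log (Ideal.absNorm x.1.asIdeal : ℕ) / T))⁻¹ : ℝ)

/-- `S_f(T)` -/
noncomputable def primeSum (f : (L ≃ₐ[K] L) → ℂ) (γ T : ℝ) : ℂ := ∑' x, term f γ T x

/-- `g` belongs to the division of `σ`: it generates a subgroup conjugate to `⟨σ⟩`. -/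
def InDivision (σ g : L ≃ₐ[K] L) : Prop :=
  ∃ x : L ≃ₐ[K] L, Subgroup.zpowers (x⁻¹ * g * x) = Subgroup.zpowers σ

open Classical in
/-- The indicator function of the division of `σ`. -/
noncomputable def division (σ g : L ≃ₐ[K] L) : ℂ := if InDivision σ g then 1 else 0

/-- The fixed field of `σ ^ d`. -/
noncomputable def fixed (σ : L ≃ₐ[K] L) (d : ℕ) : IntermediateField K L :=
  fixedField (Subgroup.zpowers (σ ^ d))

/-- The number of the infinite places of `L` fixed by `σ`. -/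
noncomputable def Fix (σ : L ≃ₐ[K] L) : ℕ := Nat.card {w : InfinitePlace L // σ • w = w}

end sums

/-- `Λ_γ = ∫_0^∞ (e^(-t) - e^(i γ t) / Γ(1 + t)) dt / t` -/
noncomputable def Lam (γ : ℝ) : ℂ := ∫ t in Ioi (0 : ℝ),
  (Complex.exp (-(t : ℂ)) - Complex.exp ((γ * t : ℝ) * Complex.I) * ((Real.Gamma (1 + t))⁻¹ : ℝ)) / t

/-- `h R / w` -/
noncomputable def hRw (F : Type) [Field F] [NumberField F] : ℝ :=
  (classNumber F : ℝ) * Units.regulator F / (Units.torsionOrder F : ℝ)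

/-- `Z` is the meromorphic continuation of the Dedekind zeta function of `F`. -/
def IsZeta (F : Type) [Field F] [NumberField F] (Z : ℂ → ℂ) : Prop :=
  (∀ s, MeromorphicAt Z s) ∧ ∀ s : ℂ, 1 < s.re → Z s = dedekindZeta F s

/-- The sum of the orders of `Z` at the points of `(0, 1]`: the number of the zeros in this interval
minus the number of the poles. -/
noncomputable def excess (Z : ℂ → ℂ) : ℤ :=
  ∑ᶠ x ∈ Ioc (0 : ℝ) 1, (meromorphicOrderAt Z (x : ℂ)).untop₀

/-- `Φ` is a meromorphic continuation of `exp (∑ χ(p^n) / (n N(p)^(n s)))`. -/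
def IsCont {E : Ext} (χ : G E → ℂ) (Φ : ℂ → ℂ) : Prop :=
  (∀ z, MeromorphicAt Φ z) ∧
    ∀ s : ℂ, 1 < s.re → ∀ l : ℂ, HasSum (logTerm χ s) l → Φ s = Complex.exp l

/-- The sum `S_χ(T)` for an extension of the type `Ext`. -/
noncomputable def artinSum {E : Ext} (χ : G E → ℂ) (γ T : ℝ) : ℂ :=
  primeSum (K := E.K) (L := E.L) (fun g => χ g) γ T

section proofs

variable {K L : Type} [Field K] [NumberField K] [Field L] [NumberField L] [Algebra K L]

lemma term_eq (f : (L ≃ₐ[K] L) → ℂ) (γ T : ℝ) (x : HeightOneSpectrum (𝓞 K) × ℕ+) :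
    term f γ T x = Run7.h453.CX.rterm (Run7.h453.ST.lamI K) (Run7.h453.ST.cI f) γ T x := rfl

lemma primeSum_eq (f : (L ≃ₐ[K] L) → ℂ) (γ T : ℝ) :
    primeSum f γ T = Run7.h453.ST.SS f γ T := rfl

lemma Lam_eq (γ : ℝ) : Lam γ = Pool.Agent.W187.UR.Lam γ := rfl

lemma term_summable (f : (L ≃ₐ[K] L) → ℂ) (γ : ℝ) {T : ℝ} (hT : 0 < T) :
    Summable fun x => ‖term f γ T x‖ :=
  Run7.h453.CX.rterm_summable Run7.h453.ST.lamI_nonneg (by norm_num : (0 : ℝ) < 2)
    (Run7.h453.ST.cI_summable f (by norm_num)) γ hT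

open Classical in
lemma primeSum_lin (f : (L ≃ₐ[K] L) → ℂ) (γ : ℝ) {T : ℝ} (hT : 0 < T) :
    primeSum f γ T = ∑ g : L ≃ₐ[K] L, f g * primeSum (Pi.single g 1) γ T := by
  have h := Run7.h453.ST.SS_lin (K := K) Finset.univ f (fun g => Pi.single g 1) γ hT
  simp only [← primeSum_eq] at h
  rw [← h]
  congr 1
  funext x
  rw [Finset.sum_eq_single x]
  · simp
  · intro b _ hb
    rw [Pi.single_eq_of_ne (Ne.symm hb), mul_zero]
  · intro h
    exact absurd (Finset.mem_univ x) h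

lemma isBigO_of {f : ℝ → ℂ} {C T₀ : ℝ} (h : ∀ T ≥ T₀, ‖f T‖ ≤ C / T) :
    f =O[atTop] fun T : ℝ => 1 / T := by
  refine Asymptotics.IsBigO.of_bound C ?_
  filter_upwards [eventually_ge_atTop T₀, eventually_gt_atTop 0] with T hT hT0
  rw [Real.norm_eq_abs, abs_of_pos (by positivity : 0 < 1 / T), mul_one_div]
  exact h T hT

/-- from the law to the limit -/
lemma limit_of {S : ℝ → ℂ} {m : ℤ} {r c Λ : ℂ} (hr : Complex.exp r = c)
    (hO : (fun T : ℝ => S T - (-m * (Real.log T - Λ) + r)) =O[atTop] (fun T : ℝ => 1 / T)) :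
    Tendsto (fun T : ℝ => Complex.exp (-S T) / (T : ℂ) ^ m) atTop
      (𝓝 (Complex.exp (-(m * Λ)) / c)) := by
  have h1 : Tendsto (fun T : ℝ => S T - (-m * (Real.log T - Λ) + r)) atTop (𝓝 0) := by
    refine hO.trans_tendsto ?_
    exact tendsto_const_nhds.div_atTop tendsto_id
  have h2 : Tendsto (fun T : ℝ => Complex.exp (-(S T - (-m * (Real.log T - Λ) + r))) *
      (Complex.exp (-(m * Λ)) / c)) atTop (𝓝 (1 * (Complex.exp (-(m * Λ)) / c))) := by
    refine Tendsto.mul_const _ ?_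
    have h3 := h1.neg
    rw [neg_zero] at h3
    have := (Complex.continuous_exp.tendsto 0).comp h3
    simpa [Function.comp_def] using this
  rw [one_mul] at h2
  refine h2.congr' ?_
  filter_upwards [eventually_gt_atTop 0] with T hT
  have h3 : (T : ℂ) ^ m = Complex.exp (m * Real.log T) := by
    rw [Complex.exp_int_mul, ← Complex.ofReal_exp, Real.exp_log hT]
  rw [h3, ← hr, ← Complex.exp_sub, ← Complex.exp_sub, ← Complex.exp_add]
  congr 1
  ring

/-- (B) -/
lemma law {E : Ext} (χ : G E → ℂ) {Φ : ℂ → ℂ} (hΦ : IsCont χ Φ) {γ : ℝ}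
    (hγ : Real.pi / 2 < γ) :
      ∃ (m : ℤ) (r : ℂ), meromorphicOrderAt Φ 0 = m ∧
        Complex.exp r = meromorphicTrailingCoeffAt Φ 0 ∧
        (fun T : ℝ => artinSum χ γ T - (-m * (Real.log T - Lam γ) + r)) =O[atTop]
          (fun T : ℝ => 1 / T) ∧
        Tendsto (fun T : ℝ => Complex.exp (-artinSum χ γ T) / (T : ℂ) ^ m) atTop
          (𝓝 (Complex.exp (-(m * Lam γ)) / meromorphicTrailingCoeffAt Φ 0)) := by
  obtain ⟨m, r, C, T₀, hm, hr, h⟩ := Run7.h453.ST.law_f (K := E.K) (L := E.L) (fun g => χ g)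
    (Φ := Φ) (fun x _ => hΦ.1 _) (fun s hs l hl => hΦ.2 s hs l (hasSum_iff.2 hl)) hγ
  have hO : (fun T : ℝ => artinSum χ γ T - (-m * (Real.log T - Lam γ) + r)) =O[atTop]
      (fun T : ℝ => 1 / T) := by
    refine isBigO_of (C := C) (T₀ := T₀) fun T hT => ?_
    have h1 := h T hT
    rw [← norm_neg] at h1
    refine le_trans (le_of_eq ?_) h1
    congr 1
    show Run7.h453.ST.SS (K := E.K) (L := E.L) (fun g => χ g) γ T -
      (-m * (Real.log T - Pool.Agent.W187.UR.Lam γ) + r) = _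
    ring
  exact ⟨m, r, hm, hr, hO, limit_of hr hO⟩

lemma lead {c : Pair → ℂ} (hc : IsLeading c) {E : Ext} {χ : G E → ℂ} (hχ : IsChr χ) {Φ : ℂ → ℂ}
    (hΦ : IsCont χ Φ) : c ⟨E, χ⟩ = meromorphicTrailingCoeffAt Φ 0 := by
  have h := hc 1 (fun _ => ⟨E, χ⟩) (fun _ => 1) Φ (fun _ => hχ) hΦ.1 (fun s hs => by
    obtain ⟨l, hl⟩ := logTerm_summable χ hs
    exact ⟨fun _ => l, fun _ => hl, by simpa using hΦ.2 s hs l hl⟩)
  simpa using h

end proofs

open Classical in
theorem result :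
    -- absolute convergence and linearity
    (∀ (K L : Type) [Field K] [NumberField K] [Field L] [NumberField L] [Algebra K L]
      (f : (L ≃ₐ[K] L) → ℂ) (γ T : ℝ), 0 < T → (Summable fun x => ‖term f γ T x‖) ∧
        primeSum f γ T = ∑ g : L ≃ₐ[K] L, f g * primeSum (Pi.single g 1) γ T) ∧
    -- (A)
    (∀ (F : Type) [Field F] [NumberField F], ∃ Z, IsZeta F Z) ∧
    (∀ (K L : Type) [Field K] [NumberField K] [Field L] [NumberField L] [Algebra K L] [IsGalois K L]
      (σ : L ≃ₐ[K] L) (Z : ℕ → ℂ → ℂ), (∀ d, d ∣ orderOf σ → IsZeta (fixed σ d) (Z d)) →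
      ∀ γ : ℝ, Real.pi / 2 < γ →
      (fun T : ℝ => primeSum (division σ) γ T -
        (Nat.card {g // InDivision σ g} : ℂ) / Nat.card (L ≃ₐ[K] L) *
          (-((Fix σ : ℂ) - 1) * (Real.log T - Lam γ) + (orderOf σ : ℂ) / Nat.totient (orderOf σ) *
            ∑ d ∈ (orderOf σ).divisors, ((μ d : ℤ) : ℂ) / d *
              (Real.log (hRw (fixed σ d)) - Real.pi * Complex.I * excess (Z d)))) =O[atTop]
        fun T : ℝ => 1 / T) ∧
    -- (B)
    (∀ (E : Ext) (χ : G E → ℂ) (Φ : ℂ → ℂ), IsCont χ Φ → ∀ γ : ℝ, Real.pi / 2 < γ →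
      ∃ (m : ℤ) (r : ℂ), meromorphicOrderAt Φ 0 = m ∧
        Complex.exp r = meromorphicTrailingCoeffAt Φ 0 ∧
        (fun T : ℝ => artinSum χ γ T - (-m * (Real.log T - Lam γ) + r)) =O[atTop]
          (fun T : ℝ => 1 / T) ∧
        Tendsto (fun T : ℝ => Complex.exp (-artinSum χ γ T) / (T : ℂ) ^ m) atTop
          (𝓝 (Complex.exp (-(m * Lam γ)) / meromorphicTrailingCoeffAt Φ 0))) ∧
    -- (C)
    (∃ c : Pair → ℂ, IsLeading c) ∧
    ∀ c : Pair → ℂ, IsLeading c → ∀ (E : Ext) (χ : G E → ℂ) (σ : ℂ ≃+* ℂ), IsChr χ →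
      ∀ Φ Φ' : ℂ → ℂ, IsCont χ Φ → IsCont (fun g => σ (χ g)) Φ' →
      ∀ m m' : ℤ, meromorphicOrderAt Φ 0 = m → meromorphicOrderAt Φ' 0 = m' →
      ∀ γ : ℝ, Real.pi / 2 < γ → ∀ l : Filter ℝ, l ≤ atTop → l.NeBot →
        (Stark c σ χ ↔ ∀ (Λ : Y E →ₗ[ℂ] Y E) (r r' : ℂ), IsStarkMap Λ → IsReg Λ χ r →
          IsReg Λ (fun g => σ (χ g)) r' → ∃ a : ℂ,
            Tendsto (fun T : ℝ => r * Complex.exp (m * Lam γ) *
              (Complex.exp (-artinSum χ γ T) / (T : ℂ) ^ m)) l (𝓝 a) ∧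
            Tendsto (fun T : ℝ => r' * Complex.exp (m' * Lam γ) *
              (Complex.exp (-artinSum (fun g => σ (χ g)) γ T) / (T : ℂ) ^ m')) l (𝓝 (σ a))) := by
  refine ⟨fun K L _ _ _ _ _ f γ T hT => ⟨term_summable f γ hT, primeSum_lin f γ hT⟩,
    fun F _ _ => ?_, fun K L _ _ _ _ _ _ σ Z hZ γ hγ => ?_, fun E χ Φ hΦ γ hγ => law χ hΦ hγ,
    exists_isLeading, fun c hc E χ σ hχ Φ Φ' hΦ hΦ' m m' hm hm' γ hγ l hl hl' => ?_⟩
  · obtain ⟨Z, h1, h2, -⟩ := Run7.h375.Zeta.zeta_zero F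
    exact ⟨Z, h1, h2⟩
  · obtain ⟨C, T₀, h⟩ := Run7.h453.ST.div_law σ (Z := Z) hZ hγ
    refine isBigO_of (C := C) (T₀ := T₀) fun T hT => ?_
    refine le_trans (le_of_eq ?_) (h T hT)
    congr 1
    have h1 : primeSum (division σ) γ T = Run7.h453.ST.SS (fun g : L ≃ₐ[K] L =>
        if Run7.h453.ST.Div σ g then 1 else 0) γ T := rfl
    have h2 : (Nat.card {g // InDivision σ g} : ℂ) =
        (Nat.card {g : L ≃ₐ[K] L // Run7.h453.ST.Div σ g} : ℂ) := rfl
    have h3 : (Fix σ : ℂ) = (Run7.h453.ST.fixN σ : ℂ) := rfl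
    rw [h1, h2, h3, Lam_eq]
    congr 3
    refine congrArg _ (Finset.sum_congr rfl fun d _ => ?_)
    have h4 : hRw (fixed σ d) = Run7.h453.ST.hRw (fixedField (Subgroup.zpowers (σ ^ d)) :
      IntermediateField K L) := rfl
    have h5 : excess (Z d) = ∑ᶠ x ∈ Ioc (0 : ℝ) 1, (meromorphicOrderAt (Z d) (x : ℂ)).untop₀ := rfl
    rw [h4, h5]
    push_cast
    ring
  · have hχ' : IsChr (fun g => σ (χ g)) := by
      obtain ⟨n, ρ, h⟩ := hχ
      refine ⟨n, (σ.toRingHom.mapMatrix.toMonoidHom).comp ρ, fun g => ?_⟩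
      show σ (χ g) = _
      rw [h g]
      exact AddMonoidHom.map_trace (σ.toRingHom.toAddMonoidHom) (ρ g)
    obtain ⟨m₁, r₁, h1, -, -, h2⟩ := law χ hΦ hγ
    obtain ⟨m₂, r₂, h3, -, -, h4⟩ := law (fun g => σ (χ g)) hΦ' hγ
    have e1 : m₁ = m := by
      rw [hm] at h1
      exact_mod_cast h1.symm
    have e2 : m₂ = m' := by
      rw [hm'] at h3
      exact_mod_cast h3.symm
    subst e1 e2
    rw [← lead hc hχ hΦ] at h2
    rw [← lead hc hχ' hΦ'] at h4
    have key : ∀ (k : ℤ) (x y : ℂ) (S : ℝ → ℂ), Tendsto (fun T : ℝ => Complex.exp (-S T) / (T : ℂ) ^ k)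
        atTop (𝓝 (Complex.exp (-(k * Lam γ)) / y)) →
        Tendsto (fun T : ℝ => x * Complex.exp (k * Lam γ) * (Complex.exp (-S T) / (T : ℂ) ^ k)) l
          (𝓝 (x / y)) := by
      intro k x y S h
      have h5 := (h.mono_left hl).const_mul (x * Complex.exp (k * Lam γ))
      have h6 : x * Complex.exp (k * Lam γ) * (Complex.exp (-(k * Lam γ)) / y) = x / y := by
        rw [Complex.exp_neg]
        have := Complex.exp_ne_zero (k * Lam γ)
        field_simp
      rwa [h6] at h5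
    constructor
    · intro hS Λ r r' hΛ hr hr'
      refine ⟨r / c ⟨E, χ⟩, key _ _ _ _ h2, ?_⟩
      rw [hS Λ hΛ _ _ ⟨r, hr, rfl⟩ ⟨r', hr', rfl⟩]
      exact key _ _ _ _ h4
    · rintro h Λ hΛ a a' ⟨r, hr, rfl⟩ ⟨r', hr', rfl⟩
      obtain ⟨a, h5, h6⟩ := h Λ r r' hΛ hr hr'
      have h7 := tendsto_nhds_unique h5 (key _ _ _ _ h2)
      have h8 := tendsto_nhds_unique h6 (key _ _ _ _ h4)
      rw [← h7, h8]

end Pool.Agent.Results.MP_46b841_nt.ChebotarevAtZero
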