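import Mathlib
import Pool.Agent.Run7.h508.SQ.Rel

/-!
# Exact multiplicative relations between Artin L-functions and Stark's numbers `A(χ, φ)`

The definitions of `Ext`, `G`, `IsChr`, `Pair`, `logTerm`, `IsLeading`, `IsStarkMap`, `IsA`,
`Stark`, `StarkSign`, `IsCC`, `lin` are in `Pool.Agent.K4H74.SC.Core`, that of `IsDefect` in
`Pool.Agent.K4H77.SL.Def`; `S` is the set of the infinite places. The formal properties of
`A(χ, φ)` and the convergence of the Artin L-series are proved.
-/

set_option autoImplicit false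

namespace Pool.Agent.Results.MP_46b841_nt.PrimePowerReduction

open NumberField Pool.Agent.K4H74 Pool.Agent.K4H74.SK Pool.Agent.K4H77 Pool.Agent.K4H34.AL
open Pool.Agent.Run7.h508.SQ (HypEll TrivEllS NoC4 qInv form_of q_trivOne q_trivOdd q_trivEll
  q_trivMixed rel_full gen_sq gen_cx gen_real gen_star gen_mixed)

/-- The decomposition group of the ideal `P` of the integers of `L`. -/
def decompGroup {E : Ext} (P : Ideal (𝓞 E.L)) : Set (G E) :=
  {g | ∀ x y : 𝓞 E.L, (y : E.L) = emb g x → (y ∈ P ↔ x ∈ P)}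

/-- The inertia group of the ideal `P` of the integers of `L`. -/
def inertiaGroup {E : Ext} (P : Ideal (𝓞 E.L)) : Set (G E) :=
  {g | ∀ x y : 𝓞 E.L, (y : E.L) = emb g x → y - x ∈ P}

/-- The inertia groups of `L / K`, and the decomposition groups of the primes above `m`, are
`l`-groups. -/
def PrimePowerInertia (l m : ℕ) (E : Ext) : Prop :=
  ∀ P : Ideal (𝓞 E.L), P.IsMaximal → (∀ g ∈ inertiaGroup P, ∃ k : ℕ, g ^ (l ^ k) = 1) ∧
    ((m : 𝓞 E.L) ∈ P → ∀ g ∈ decompGroup P, ∃ k : ℕ, g ^ (l ^ k) = 1)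

/-- The linear character `ψ` takes the value `-1` at all complex conjugations. -/
def TotallyOdd {E : Ext} (ψ : G E →* ℂˣ) : Prop := ∀ t : G E, IsCC t → ψ t = -1

/-- The basic characters: the trivial characters, the totally odd linear characters of the
extensions of the totally real fields (for these two types Stark's conjecture is known, by the
class number formula and Siegel's theorem), and the faithful linear characters of the (cyclic)
extensions `L / K`, `K` totally complex, such that for one prime number `l` all inertia groups, and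
the decomposition groups of the primes above `m`, are `l`-groups. -/
inductive Basic (m : ℕ) : Pair → Prop
  | trivial (E : Ext) : Basic m ⟨E, fun _ => 1⟩
  | odd (E : Ext) (ψ : G E →* ℂˣ) : IsTotallyReal E.K → TotallyOdd ψ → Basic m ⟨E, lin ψ⟩
  | primePower (E : Ext) (ψ : G E →* ℂˣ) (l : ℕ) : l.Prime → IsTotallyComplex E.K →
      PrimePowerInertia l m E → Function.Injective ψ → Basic m ⟨E, lin ψ⟩

/-- The mixed characters: the faithful linear characters of the cyclic extensions of degree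
`4, 8, 16, …`, unramified at infinity, of the fields which are neither totally real nor totally
complex. -/
inductive Mixed : Pair → Prop
  | mk (E : Ext) (ψ : G E →* ℂˣ) (k : ℕ) : ¬ IsTotallyReal E.K → ¬ IsTotallyComplex E.K →
      Nat.card (G E) = 2 ^ (k + 2) → (∀ t : G E, IsCC t → t = 1) → Function.Injective ψ →
      Mixed ⟨E, lin ψ⟩

/-- `a` is one of the numbers `A(χ, φ)`. -/
def IsStarkNumber (c : Pair → ℂ) (x : Pair) (a : ℂ) : Prop :=
  ∃ Λ : Y x.1 →ₗ[ℂ] Y x.1, IsStarkMap Λ ∧ IsA c Λ x.2 a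

/-- There are characters `ψ_i` in the family `T` and integers `k_i` with
`L(s, χ)^n = ∏ L(s, ψ_i)^(k_i)` (for the logarithms, `Re s > 1`), the same relation for the leading
coefficients at `s = 0`, the same relation for the defects for all automorphisms `σ` of `ℂ`, and
`A(χ, φ)^n = α ∏ A(ψ_i, φ_i)^(k_i)` for all `φ`, `φ_i`, with a number `α` in the field generated by
the values of `χ` and of the `ψ_i`. -/
def Relation (c : Pair → ℂ) (n : ℕ) (χ : Pair) (T : Pair → Prop) : Prop :=
  ∃ (r : ℕ) (ψ : Fin r → Pair) (k : Fin r → ℤ), (∀ i, T (ψ i)) ∧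
    (∀ s : ℂ, 1 < s.re → ∀ (l : ℂ) (l' : Fin r → ℂ), HasSum (logTerm χ.2 s) l →
      (∀ i, HasSum (logTerm (ψ i).2 s) (l' i)) → n * l = ∑ i, k i * l' i) ∧
    c χ ^ n = ∏ i, c (ψ i) ^ k i ∧
    (∀ (σ : ℂ ≃+* ℂ) (d : ℂˣ) (d' : Fin r → ℂˣ), IsDefect c σ χ.2 d →
      (∀ i, IsDefect c σ (ψ i).2 (d' i)) → d ^ n = ∏ i, d' i ^ k i) ∧
    ∀ (a : ℂ) (a' : Fin r → ℂ), IsStarkNumber c χ a → (∀ i, IsStarkNumber c (ψ i) (a' i)) →
      ∃ α : ℂ, α ∈ IntermediateField.adjoin ℚ (Set.range χ.2 ∪ ⋃ i, Set.range (ψ i).2) ∧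
        a ^ n = α * ∏ i, a' i ^ k i

/-- No subgroup of `Gal(N/ℚ)` which contains a complex conjugation has a cyclic quotient of
order `4`. -/
def NoQuotientFour (N : Type) [Field N] [NumberField N] : Prop :=
  ∀ H : Subgroup (N ≃ₐ[ℚ] N), (∃ t ∈ H, ∃ φ : N →+* ℂ, ∀ x, φ (t x) = star (φ x)) →
    ∀ ψ : H →* ℂˣ, ψ ^ 4 = 1 → ψ ^ 2 = 1

/-- `χ` is a character of `Gal(L/K)` with `K` totally complex, or with `L` totally real, or with
`L` contained in a Galois extension `N` of `ℚ` with the property `NoQuotientFour`. -/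
def Good (E : Ext) : Prop :=
  IsTotallyComplex E.K ∨ IsTotallyReal E.L ∨
    ∃ (N : Type) (_ : Field N) (_ : NumberField N) (_ : Algebra E.L N), IsGalois ℚ N ∧
      NoQuotientFour N

lemma mem_decomp {E : Ext} {P : Ideal (𝓞 E.L)} (g : G E) :
    g ∈ decompGroup P ↔ (show E.L ≃ₐ[E.K] E.L from g) ∈ SL.decomp E.K P := by
  constructor
  · intro h x
    exact h x _ rfl
  · intro h x y hy
    have h1 : y = SL.gi (show E.L ≃ₐ[E.K] E.L from g) x := RingOfIntegers.ext hy
    rw [h1]
    exact h x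

lemma mem_inertia {E : Ext} {P : Ideal (𝓞 E.L)} (g : G E) :
    g ∈ inertiaGroup P ↔ (show E.L ≃ₐ[E.K] E.L from g) ∈ SL.inertia E.K P := by
  constructor
  · intro h x
    exact h x _ rfl
  · intro h x y hy
    have h1 : y = SL.gi (show E.L ≃ₐ[E.K] E.L from g) x := RingOfIntegers.ext hy
    rw [h1]
    exact h x

lemma isChr_one (E : Ext) : IsChr (fun _ : G E => (1 : ℂ)) := by
  have h1 := isChr_lin (E := E) 1
  have h2 : lin (1 : G E →* ℂˣ) = fun _ => 1 := by
    funext g
    simp [lin]
  rwa [h2] at h1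

lemma Basic.isChr {m : ℕ} {x : Pair} (h : Basic m x) : IsChr x.2 := by
  cases h with
  | trivial E => exact isChr_one E
  | odd E ψ _ _ => exact isChr_lin ψ
  | primePower E ψ _ _ _ _ _ => exact isChr_lin ψ

lemma Mixed.isChr {x : Pair} (h : Mixed x) : IsChr x.2 := by
  cases h with
  | mk E ψ _ _ _ _ _ _ => exact isChr_lin ψ

lemma hypEll {m : ℕ} {T : Pair → Prop} (hT : ∀ x, Basic m x → T x) : HypEll T m :=
  fun E l hl hK hP ψ hψ => hT _ (Basic.primePower E ψ l hl hK (fun P hPm =>
    ⟨fun g hg => (hP P hPm).1 g ((mem_inertia g).mp hg),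
      fun hmP g hg => (hP P hPm).2 hmP g ((mem_decomp g).mp hg)⟩) hψ)

/-- from the values of the invariants to the relations -/
lemma relation_of {c : Pair → ℂ} (hc : IsLeading c) {T : Pair → Prop} (hT : ∀ x, T x → IsChr x.2)
    {E : Ext} {χ : G E → ℂ} (hχ : IsChr χ) {n : ℕ}
    (h : (qInv (allInv hc) T).val E.K E.L χ ^ n = 1) : Relation c n ⟨E, χ⟩ T := by
  obtain ⟨r, x, k, hx, h1⟩ := form_of h
  exact ⟨r, x, k, hx, rel_full hc (y := ⟨E, χ⟩) hχ (fun i => hT _ (hx i)) h1⟩

/-- from the relations to Stark's conjecture -/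
lemma Relation.defect {c : Pair → ℂ} {T : Pair → Prop} {n : ℕ} {x : Pair}
    (h : Relation c n x T) {σ : ℂ ≃+* ℂ}
    (hσ : ∀ x, T x → Stark c σ x.2) {d : ℂˣ} (hd : IsDefect c σ x.2 d) : d ^ n = 1 := by
  obtain ⟨r, ψ, k, hψ, -, -, h1, -⟩ := h
  rw [h1 σ d (fun _ => 1) hd fun i => isDefect_one_iff.mpr (hσ _ (hψ i))]
  simp

/-- Let `c` be a system of leading coefficients at `s = 0` of the Artin L-functions (such systems
exist; by Brauer's theorem on the meromorphic continuation, the only one is `L*(0, χ)`). Every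
character `χ` has for every automorphism `σ` of `ℂ` exactly one defect `d(χ, σ)`, a nonzero number
with `A(χ, φ)^σ = d(χ, σ) A(χ^σ, φ)` for all `φ`; Stark's conjecture says that `d(χ, σ) = 1`.

Let `m ≥ 1`, and let `χ` be a character of a Galois extension `L / K` of number fields.

(1) `L(s, χ)^2 = ∏ L(s, ψ_i)^(k_i)` with basic characters `ψ_i`, and the same is true for the
leading coefficients at `s = 0`, for the defects, and, up to a factor in the field generated by the
values of the characters, for the numbers `A(χ, φ)`.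

(2) The same is true with `L(s, χ)` in place of `L(s, χ)^2` if `K` is totally complex, or if `L` is
totally real, or if `L` is contained in a Galois extension `N` of `ℚ` such that no subgroup of
`Gal(N/ℚ)` which contains a complex conjugation has a cyclic quotient of order `4`.

(3) The same is true with `L(s, χ)` in place of `L(s, χ)^2` in general, if also mixed characters are
allowed among the `ψ_i`.

(4) For every automorphism `σ` of `ℂ`: if Stark's conjecture is true for the basic characters and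
`σ`, then it is true up to sign for all characters and `σ`, and it is true for `χ` and `σ` in the
cases of (2); it is true for all characters and `σ` if it is true for the basic and the mixed
characters and `σ`. -/
theorem result : (∃ c : Pair → ℂ, IsLeading c) ∧ ∀ c : Pair → ℂ, IsLeading c →
    -- the defects
    (∀ (σ : ℂ ≃+* ℂ) (E : Ext) (χ : G E → ℂ), IsChr χ → ∃! d : ℂˣ, IsDefect c σ χ d) ∧
    ∀ m : ℕ, m ≠ 0 →
      -- (1), (2), (3)
      (∀ (E : Ext) (χ : G E → ℂ), IsChr χ →
        Relation c 2 ⟨E, χ⟩ (Basic m) ∧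
        (Good E → Relation c 1 ⟨E, χ⟩ (Basic m)) ∧
        Relation c 1 ⟨E, χ⟩ (fun x => Basic m x ∨ Mixed x)) ∧
      -- (4)
      ∀ σ : ℂ ≃+* ℂ, (∀ x : Pair, Basic m x → Stark c σ x.2) →
        ∀ (E : Ext) (χ : G E → ℂ), IsChr χ →
          StarkSign c σ χ ∧ (Good E → Stark c σ χ) ∧
            ((∀ x : Pair, Mixed x → Stark c σ x.2) → Stark c σ χ) := by
  refine ⟨exists_isLeading, fun c hc => ⟨fun σ E χ hχ => existsUnique_defect hc σ hχ,
    fun m hm => ?_⟩⟩
  have huniv : (2 : ℕ) ∈ (Set.univ : Set ℕ) := Set.mem_univ 2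
  have hmain : ∀ (E : Ext) (χ : G E → ℂ), IsChr χ →
        Relation c 2 ⟨E, χ⟩ (Basic m) ∧
        (Good E → Relation c 1 ⟨E, χ⟩ (Basic m)) ∧
        Relation c 1 ⟨E, χ⟩ (fun x => Basic m x ∨ Mixed x) := by
    intro E χ hχ
    have h' := isChr_iff.mp hχ
    have iR : ST.TrivOne (qInv (allInv hc) (Basic m)) :=
      q_trivOne fun K _ _ => Basic.trivial ⟨K, K⟩
    have iO : ST.TrivOdd (qInv (allInv hc) (Basic m)) :=
      q_trivOdd fun E hE ψ hψ => Basic.odd E ψ hE hψ
    have iE : TrivEllS (qInv (allInv hc) (Basic m)) m Set.univ := q_trivEll (hypEll fun _ h => h)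
    obtain ⟨N, j1, j2, j3, j4⟩ := Pool.Agent.K4H34.ST.exists_gal E.L
    refine ⟨?_, ?_, ?_⟩
    · exact relation_of hc (fun _ h => h.isChr) hχ (gen_sq hm iR iO huniv iE E.K E.L N
        (fun l _ h => absurd (Set.mem_univ l) h) h')
    · rintro (hK | hL | ⟨N', k1, k2, k3, k4, hN'⟩)
      · refine relation_of hc (fun _ h => h.isChr) hχ ?_
        rw [pow_one]
        exact gen_cx hm iR iO huniv iE E.K E.L N (fun l _ h => absurd (Set.mem_univ l) h) h' hK
      · refine relation_of hc (fun _ h => h.isChr) hχ ?_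
        rw [pow_one]
        exact gen_real hm iR iO iE E.K E.L hL h'
      · refine relation_of hc (fun _ h => h.isChr) hχ ?_
        rw [pow_one]
        refine gen_star hm iR iO huniv iE E.K E.L N' (fun l _ h => absurd (Set.mem_univ l) h) h' ?_
        rintro H ⟨t, ⟨φ, hφ⟩, htH⟩ ψ hψ
        exact hN' H ⟨t, htH, φ, fun x => (hφ.eq x)⟩ ψ hψ
    · have iR' : ST.TrivOne (qInv (allInv hc) (fun x => Basic m x ∨ Mixed x)) :=
        q_trivOne fun K _ _ => Or.inl (Basic.trivial ⟨K, K⟩)
      have iO' : ST.TrivOdd (qInv (allInv hc) (fun x => Basic m x ∨ Mixed x)) :=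
        q_trivOdd fun E hE ψ hψ => Or.inl (Basic.odd E ψ hE hψ)
      have iE' : TrivEllS (qInv (allInv hc) (fun x => Basic m x ∨ Mixed x)) m Set.univ :=
        q_trivEll (hypEll fun _ h => Or.inl h)
      refine relation_of hc (fun x h => h.elim (fun h => h.isChr) (fun h => h.isChr)) hχ ?_
      rw [pow_one]
      exact gen_mixed hm iR' iO' huniv iE' E.K E.L N (fun l _ h => absurd (Set.mem_univ l) h) h'
        (fun y => pow_zero y) (q_trivMixed fun E h1 h2 ⟨k, hk⟩ h3 ψ hψ =>
          Or.inr (Mixed.mk E ψ k h1 h2 hk h3 hψ))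
  refine ⟨hmain, ?_⟩
  intro σ hb E χ hχ
  obtain ⟨r1, r2, r3⟩ := hmain E χ hχ
  obtain ⟨d, hd, -⟩ := existsUnique_defect hc σ hχ
  refine ⟨?_, fun hg => ?_, fun hM => ?_⟩
  · have h1 := r1.defect hb hd
    intro Λ hΛ a a' ha ha'
    have h2 := hd Λ hΛ a a' ha ha'
    have h3 : ((d : ℂˣ) : ℂ) * ((d : ℂˣ) : ℂ) = 1 := by
      rw [← Units.val_mul, ← pow_two, h1, Units.val_one]
    rcases mul_self_eq_one_iff.mp h3 with h | h
    · left; rw [h2, h, one_mul]
    · right; rw [h2, h, neg_one_mul]
  · have h1 := (r2 hg).defect hb hd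
    rw [pow_one] at h1
    rw [h1] at hd
    exact isDefect_one_iff.mp hd
  · have h1 := r3.defect (fun x h => h.elim (hb x) (hM x)) hd
    rw [pow_one] at h1
    rw [h1] at hd
    exact isDefect_one_iff.mp hd

end Pool.Agent.Results.MP_46b841_nt.PrimePowerReduction
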